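import Pool.Agent.H7.HD.Targets2

/-!
# MP_e37c09_lc, module KD: the club of cardinals which are inaccessible in HOD
-/

open Ordinal Cardinal Order Set
open scoped ZFSet

universe u

namespace Pool.Agent.H54.HD.KD

open _root_.HD

theorem X (hEN : T_EN.{u}) (hHA : T_HA.{u}) (hHB2 : T_HB2.{u}) (hKA : T_KA.{u}) (hKB : T_KB.{u})
    (hKC : T_KC.{u}) (hVC : T_VC.{u}) (hVE : T_VE.{u}) : T_KD.{u} := by
  intro D K hD hK hDK
  obtain ⟨en, hen⟩ := hEN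
  obtain ⟨hDr, hDs, hDℵ, hDn⟩ := hD
  have hKℵ : ℵ₀ < K := hDℵ.trans hDK
  have hKcof : K.ord.cof = K := hK.cof_ord
  have hns : NS D.ord (ℵ₀ : Cardinal.{u}).ord K.ord :=
    hDn ℵ₀ isRegular_aleph0 hDℵ K.ord (by rw [hKcof]; exact hDK.le)
  have hnsx : NSX D.ord (ℵ₀ : Cardinal.{u}).ord K.ord := hHA _ _ _ hns
  have hat : ∀ X : Set Ordinal.{u}, DS X → Pos (ℵ₀ : Cardinal.{u}).ord K.ord X →
      ∃ c, E en c ⊆ X ∧ Atom en (ℵ₀ : Cardinal.{u}).ord K.ord c :=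
    hHB2 en hen D ℵ₀ K.ord hDr hDs hDℵ isRegular_aleph0 hDℵ (by rw [hKcof]; exact hDK) hnsx
  have hsing := hKA en hen ℵ₀ K hK hKℵ hat
  obtain ⟨C1, hC1, hC1r⟩ := hKB K hK hKℵ hsing
  have hDSu : DS (univ : Set Ordinal.{u}) := (DO.cst True).congr fun w => by simp
  obtain ⟨c, -, hc⟩ := hat univ hDSu (hVC ℵ₀ K.ord isRegular_aleph0 (by rw [hKcof]; exact hKℵ))
  have hpow := hKC en hen _ K c hK hKℵ hc
  have hωK : ω < K.ord := by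
    rw [← ord_aleph0, Cardinal.ord_lt_ord]
    exact hKℵ
  have key : ∀ y : Ordinal.{u}, ∃ z : Ordinal.{u}, y < K.ord → (z < K.ord ∧ ω ≤ z ∧
      (∃ b ≤ z, PowHOD y b) ∧ ∃ b ≤ z, y < b ∧ b ∈ C1) := by
    intro y
    by_cases hy : y < K.ord
    · obtain ⟨b, hb, hb2⟩ := hpow y hy
      obtain ⟨b', hb', hyb, hbC⟩ := hC1.unb y hy
      exact ⟨max (max b b') ω, fun _ => ⟨max_lt (max_lt hb hb') hωK, le_max_right _ _,
        ⟨b, (le_max_left _ _).trans (le_max_left _ _), hb2⟩,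
        ⟨b', (le_max_right _ _).trans (le_max_left _ _), hyb, hbC⟩⟩⟩
    · exact ⟨0, fun h => absurd h hy⟩
  choose G hG using key
  refine ⟨_, hVE K hK hKℵ G fun x hx => (hG x hx).1, ?_⟩
  rintro α ⟨h0, hα⟩ hαK
  refine ⟨?_, ?_, ?_⟩
  · exact (hG 0 (h0.trans hαK)).2.1.trans_lt (hα 0 h0)
  · refine hC1r α (hC1.cls α hαK h0 fun y hy => ?_) hαK
    obtain ⟨b, hb, hyb, hbC⟩ := (hG y (hy.trans hαK)).2.2.2
    exact ⟨b, hb.trans_lt (hα y hy), hyb, hbC⟩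
  · intro τ hτ
    obtain ⟨b, hb, hp⟩ := (hG τ (hτ.trans hαK)).2.2.1
    exact ⟨b, hb.trans_lt (hα τ hτ), hp⟩

end Pool.Agent.H54.HD.KD
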