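import Pool.Agent.H7.HD.Tools2

/-!
# MP_e37c09_lc, module LA: being of cofinality `μ` is locally definable
-/

open Ordinal Cardinal Order Set
open scoped ZFSet

universe u

namespace Pool.Agent.H54.HD.LA

open _root_.HD

/-- there is a cofinal function from `ν` to `β` -/
def CF (ν β : Ordinal.{u}) : Prop := ∃ f : Ordinal.{u} → Ordinal.{u}, (∀ a < ν, f a < β) ∧
  ∀ b < β, ∃ a < ν, b ≤ f a

theorem cf_le {ν β : Ordinal.{u}} (h : CF ν β) : β.cof.ord ≤ ν := by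
  obtain ⟨f, h1, h2⟩ := h
  have hs : IsCofinal {y : Iio β | ∃ a < ν, f a = y.1} := by
    intro b
    obtain ⟨a, ha, hb⟩ := h2 b.1 b.2
    exact ⟨⟨f a, h1 a ha⟩, ⟨a, ha, rfl⟩, hb⟩
  have h3 := Order.cof_le hs
  rw [cof_Iio, ← lift_cof] at h3
  have h4 : #{x : Ordinal.{u} | ∃ a < ν, f a = x} ≤ Cardinal.lift.{u + 1} ν.card :=
    cov_iff.1 ⟨f, fun x hx => hx⟩
  have h5 : #{y : Iio β | ∃ a < ν, f a = y.1} ≤ #{x : Ordinal.{u} | ∃ a < ν, f a = x} := by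
    refine Cardinal.mk_le_of_injective (f := fun y => ⟨y.1.1, y.2⟩) fun y z hyz => ?_
    have hyz' := Subtype.ext_iff.1 hyz
    exact Subtype.ext (Subtype.ext hyz')
  have h6 := h3.trans (h5.trans h4)
  rw [Cardinal.lift_le] at h6
  exact Cardinal.ord_le.2 h6

theorem cf_self (β : Ordinal.{u}) : CF β.cof.ord β := by
  obtain ⟨s, hs, hs2⟩ := Order.exists_cof_eq (Iio β)
  rw [cof_Iio, ← lift_cof] at hs2
  have h1 : #(Subtype.val '' s : Set Ordinal.{u}) ≤ Cardinal.lift.{u + 1} β.cof.ord.card := by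
    rw [Cardinal.card_ord, ← hs2]
    exact Cardinal.mk_image_le
  obtain ⟨e, he⟩ := cov_iff.2 h1
  classical
  refine ⟨fun a => if e a < β then e a else 0, fun a ha => ?_, fun b hb => ?_⟩
  · show (if e a < β then e a else 0) < β
    split_ifs with h
    · exact h
    · rw [pos_iff_ne_zero]
      rintro rfl
      simp at ha
  · obtain ⟨y, hy, hby⟩ := hs ⟨b, hb⟩
    obtain ⟨a, ha, hay⟩ := he y.1 ⟨y, hy, rfl⟩
    refine ⟨a, ha, ?_⟩
    show b ≤ (if e a < β then e a else 0)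
    rw [if_pos (by rw [hay]; exact y.2), hay]
    exact hby

theorem cf_iff {μ β : Ordinal.{u}} : Cf μ β ↔ CF μ β ∧ ∀ ν < μ, ¬ CF ν β := by
  constructor
  · intro h
    have h : β.cof.ord = μ := h
    subst h
    exact ⟨cf_self β, fun ν hν h => absurd (cf_le h) (not_le.2 hν)⟩
  · rintro ⟨h1, h2⟩
    show β.cof.ord = μ
    refine le_antisymm (cf_le h1) ?_
    by_contra h
    exact h2 _ (not_le.1 h) (cf_self β)

/-- the version for sets -/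
def CZ (x y : ZFSet.{u}) : Prop := ∃ g, ZFSet.IsFunc x y g ∧
  ∀ b ∈ y, ∃ a ∈ x, ∃ c ∈ y, ZFSet.pair a c ∈ g ∧ b ⊆ c

theorem cz_iff {μ β : Ordinal.{u}} : CZ μ.toZFSet β.toZFSet ↔ CF μ β := by
  constructor
  · rintro ⟨g, ⟨h1, h2⟩, h3⟩
    have key : ∀ a : Ordinal.{u}, ∃ c : Ordinal.{u}, a < μ →
        (c < β ∧ ZFSet.pair a.toZFSet c.toZFSet ∈ g) := by
      intro a
      by_cases ha : a < μ
      · obtain ⟨w, hw, -⟩ := h2 _ (toZFSet_mem_toZFSet_iff.2 ha)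
        obtain ⟨c, hc, rfl⟩ := mem_toZFSet_iff.1 (ZFSet.pair_mem_prod.1 (h1 hw)).2
        exact ⟨c, fun _ => ⟨hc, hw⟩⟩
      · exact ⟨0, fun h => absurd h ha⟩
    choose f hf using key
    refine ⟨f, fun a ha => (hf a ha).1, fun b hb => ?_⟩
    obtain ⟨a, ha, c, hc, hp, hbc⟩ := h3 _ (toZFSet_mem_toZFSet_iff.2 hb)
    obtain ⟨a, ha', rfl⟩ := mem_toZFSet_iff.1 ha
    obtain ⟨w, -, hw⟩ := h2 _ ha
    have h4 := hw _ hp
    have h5 := hw _ (hf a ha').2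
    rw [h4, ← h5] at hbc
    exact ⟨a, ha', toZFSet_subset_toZFSet_iff.1 hbc⟩
  · rintro ⟨f, h1, h2⟩
    refine ⟨rs μ β (fun a b => b = f a), ⟨?_, ?_⟩, ?_⟩
    · intro p hp
      exact (ZFSet.mem_sep.1 hp).1
    · intro z hz
      obtain ⟨a, ha, rfl⟩ := mem_toZFSet_iff.1 hz
      refine ⟨(f a).toZFSet, pair_mem_rs.2 ⟨ha, h1 a ha, rfl⟩, fun w hw => ?_⟩
      obtain ⟨a', -, b', -, hb, he⟩ := mem_rs.1 hw
      obtain ⟨h3, rfl⟩ := ZFSet.pair_injective he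
      rw [hb, toZFSet_injective h3]
    · intro b hb
      obtain ⟨b, hb', rfl⟩ := mem_toZFSet_iff.1 hb
      obtain ⟨a, ha, hba⟩ := h2 b hb'
      exact ⟨_, toZFSet_mem_toZFSet_iff.2 ha, _, toZFSet_mem_toZFSet_iff.2 (h1 a ha),
        pair_mem_rs.2 ⟨ha, h1 a ha, rfl⟩, toZFSet_subset_toZFSet_iff.2 hba⟩

theorem loc_cz (i j : ℕ) : Loc.{u} (fun v => CZ (v i) (v j)) := by
  refine Loc.ex (R := fun g v => ZFSet.IsFunc (v i) (v j) g ∧
    ∀ b ∈ v j, ∃ a ∈ v i, ∃ c ∈ v j, ZFSet.pair a c ∈ g ∧ b ⊆ c) ?_ ?_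
  · exact (loc_func (i + 1) (j + 1) 0).and (Loc.allMem _ (Loc.exMem _ (Loc.exMem _
      ((loc_pmem 1 0 3).and (Loc.sub 2 0)))))
  · rintro η hη v hv g ⟨hg, -⟩
    exact mem_V_of_sub hg.1 (hη.prod (hv _) (hv _))

theorem X : T_LA.{u} := by
  refine Loc.congr (P := fun v => (v 0).IsOrdinal ∧ (v 1).IsOrdinal ∧ CZ (v 0) (v 1) ∧
    ∀ n ∈ v 0, ¬ CZ n (v 1)) ?_ fun v => ?_
  · exact (loc_ord 0).and ((loc_ord 1).and ((loc_cz 0 1).and (Loc.allMem _ (loc_cz 0 2).not)))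
  · refine and_congr_right fun h0 => and_congr_right fun h1 => ?_
    obtain ⟨μ, hμ⟩ := ord_of h0
    obtain ⟨β, hβ⟩ := ord_of h1
    rw [hμ, hβ, rank_toZFSet, rank_toZFSet, cf_iff, cz_iff]
    refine and_congr_right fun _ => ?_
    constructor
    · intro h n hn
      obtain ⟨ν, hν, rfl⟩ := mem_toZFSet_iff.1 hn
      rw [cz_iff]
      exact h ν hν
    · intro h ν hν
      rw [← cz_iff]
      exact h _ (toZFSet_mem_toZFSet_iff.2 hν)

end Pool.Agent.H54.HD.LA
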