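import Pool.Agent.H7.HD.Targets2

/-!
# MP_e37c09_lc, module RC: being inaccessible is locally definable
-/

open Ordinal Cardinal Order Set
open scoped ZFSet

universe u

namespace Pool.Agent.H54.HD.RC

open _root_.HD

/-- there is a partial function from the subsets of `τ` onto `δ` -/
def Onto (t d : ZFSet.{u}) : Prop := ∃ F, F ⊆ ZFSet.prod (ZFSet.powerset t) d ∧
  (∀ x ∈ ZFSet.powerset t, ∀ a ∈ d, ∀ b ∈ d, ZFSet.pair x a ∈ F → ZFSet.pair x b ∈ F → a = b) ∧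
  ∀ a ∈ d, ∃ x ∈ ZFSet.powerset t, ZFSet.pair x a ∈ F

theorem loc_onto (i j : ℕ) : Loc.{u} (fun v => Onto (v i) (v j)) := by
  refine Loc.congr (P := fun v => ∃ p, p = ZFSet.powerset (v i) ∧ ∃ q, q = ZFSet.prod p (v j) ∧
    ∃ F ⊆ q, (∀ x ∈ p, ∀ a ∈ v j, ∀ b ∈ v j, ZFSet.pair x a ∈ F → ZFSet.pair x b ∈ F → a = b) ∧
      ∀ a ∈ v j, ∃ x ∈ p, ZFSet.pair x a ∈ F) ?_ fun v => ?_
  · refine Loc.ex (R := fun p v => p = ZFSet.powerset (v i) ∧ ∃ q, q = ZFSet.prod p (v j) ∧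
      ∃ F ⊆ q, (∀ x ∈ p, ∀ a ∈ v j, ∀ b ∈ v j, ZFSet.pair x a ∈ F → ZFSet.pair x b ∈ F → a = b) ∧
        ∀ a ∈ v j, ∃ x ∈ p, ZFSet.pair x a ∈ F) ?_ ?_
    · refine (loc_powerset 0 (i + 1)).and (Loc.ex ?_ ?_)
      · refine (loc_prod 0 1 (j + 2)).and (Loc.exSub _ ?_)
        -- variables: F = 0, q = 1, p = 2, v j = j + 3
        refine Loc.and (Loc.allMem _ (Loc.allMem _ (Loc.allMem _ ?_)))
          (Loc.allMem _ (Loc.exMem _ (loc_pmem 0 1 2)))
        exact (loc_pmem 2 1 3).imp ((loc_pmem 2 0 3).imp (Loc.eq 1 0))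
      · rintro η hη v hv q ⟨rfl, -⟩
        exact hη.prod (hv 0) (hv _)
    · rintro η hη v hv p ⟨rfl, -⟩
      exact hη.powerset (hv _)
  · constructor
    · rintro ⟨F, h1, h2, h3⟩
      exact ⟨_, rfl, _, rfl, F, h1, h2, h3⟩
    · rintro ⟨_, rfl, _, rfl, F, h1, h2, h3⟩
      exact ⟨F, h1, h2, h3⟩

theorem mk_subsets (τ : Ordinal.{u}) :
    #(Set (Iio τ)) = Cardinal.lift.{u + 1} (2 ^ τ.card) := by
  rw [Cardinal.mk_set, Cardinal.mk_Iio_ordinal, Cardinal.lift_power, Cardinal.lift_two]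

theorem onto_iff {τ δ : Ordinal.{u}} :
    Onto τ.toZFSet δ.toZFSet ↔ δ.card ≤ 2 ^ τ.card := by
  have h0 : #(Iio δ) = Cardinal.lift.{u + 1} δ.card := Cardinal.mk_Iio_ordinal δ
  constructor
  · rintro ⟨F, h1, h2, h3⟩
    have key : ∀ a : Iio δ, ∃ x : ZFSet.{u}, x ⊆ τ.toZFSet ∧ ZFSet.pair x a.1.toZFSet ∈ F := by
      intro a
      obtain ⟨x, hx, hp⟩ := h3 _ (toZFSet_mem_toZFSet_iff.2 a.2)
      exact ⟨x, ZFSet.mem_powerset.1 hx, hp⟩
    choose g hg1 hg2 using key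
    let f : Iio δ → Set (Iio τ) := fun a => {b | b.1.toZFSet ∈ g a}
    have hf : Function.Injective f := by
      intro a b hab
      have hgg : g a = g b := by
        ext z
        constructor
        · intro hz
          obtain ⟨c, hc, rfl⟩ := mem_toZFSet_iff.1 (hg1 a hz)
          have : (⟨c, hc⟩ : Iio τ) ∈ f a := hz
          rw [hab] at this
          exact this
        · intro hz
          obtain ⟨c, hc, rfl⟩ := mem_toZFSet_iff.1 (hg1 b hz)
          have : (⟨c, hc⟩ : Iio τ) ∈ f b := hz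
          rw [← hab] at this
          exact this
      have h4 := hg2 a
      rw [hgg] at h4
      have h5 := h2 _ (ZFSet.mem_powerset.2 (hg1 b)) _ (toZFSet_mem_toZFSet_iff.2 a.2) _
        (toZFSet_mem_toZFSet_iff.2 b.2) h4 (hg2 b)
      exact Subtype.ext (toZFSet_injective h5)
    have h6 := Cardinal.mk_le_of_injective hf
    rw [h0, mk_subsets, Cardinal.lift_le] at h6
    exact h6
  · intro h
    have h1 : #(Iio δ) ≤ #(Set (Iio τ)) := by
      rw [h0, mk_subsets, Cardinal.lift_le]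
      exact h
    obtain ⟨f⟩ := (Cardinal.le_def _ _).1 h1
    classical
    let g : Ordinal.{u} → ZFSet.{u} := fun a =>
      if ha : a < δ then os τ (Subtype.val '' f ⟨a, ha⟩) else ∅
    have hg : ∀ a < δ, g a ⊆ τ.toZFSet := by
      intro a ha z hz
      simp only [g, dif_pos ha] at hz
      obtain ⟨b, hb, -, rfl⟩ := mem_os.1 hz
      exact toZFSet_mem_toZFSet_iff.2 hb
    have hinj : ∀ a < δ, ∀ b < δ, g a = g b → a = b := by
      intro a ha b hb hab
      simp only [g, dif_pos ha, dif_pos hb] at hab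
      have h2 : f ⟨a, ha⟩ = f ⟨b, hb⟩ := by
        ext c
        have h3 : c.1.toZFSet ∈ os τ (Subtype.val '' f ⟨a, ha⟩) ↔ c ∈ f ⟨a, ha⟩ := by
          rw [ord_mem_os]
          constructor
          · rintro ⟨-, c', hc', he⟩
            rwa [Subtype.ext he] at hc'
          · intro hc
            exact ⟨c.2, c, hc, rfl⟩
        have h4 : c.1.toZFSet ∈ os τ (Subtype.val '' f ⟨b, hb⟩) ↔ c ∈ f ⟨b, hb⟩ := by
          rw [ord_mem_os]
          constructor
          · rintro ⟨-, c', hc', he⟩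
            rwa [Subtype.ext he] at hc'
          · intro hc
            exact ⟨c.2, c, hc, rfl⟩
        rw [← h3, ← h4, hab]
      exact congrArg Subtype.val (f.injective h2)
    refine ⟨ZFSet.sep (fun p => ∃ a < δ, p = ZFSet.pair (g a) a.toZFSet)
      (ZFSet.prod (ZFSet.powerset τ.toZFSet) δ.toZFSet), fun p hp => (ZFSet.mem_sep.1 hp).1, ?_, ?_⟩
    · intro x _ a _ b _ hxa hxb
      obtain ⟨-, a', ha', he⟩ := ZFSet.mem_sep.1 hxa
      obtain ⟨-, b', hb', he'⟩ := ZFSet.mem_sep.1 hxb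
      obtain ⟨h3, rfl⟩ := ZFSet.pair_injective he
      obtain ⟨h4, rfl⟩ := ZFSet.pair_injective he'
      rw [hinj a' ha' b' hb' (h3.symm.trans h4)]
    · intro a ha
      obtain ⟨a, ha', rfl⟩ := mem_toZFSet_iff.1 ha
      refine ⟨g a, ZFSet.mem_powerset.2 (hg a ha'), ZFSet.mem_sep.2 ⟨?_, a, ha', rfl⟩⟩
      exact ZFSet.pair_mem_prod.2 ⟨ZFSet.mem_powerset.2 (hg a ha'), ha⟩

theorem X (hLA : T_LA.{u}) : T_RC.{u} := by
  refine Loc.congr (P := fun v => (v 0).IsOrdinal ∧ (∃ x ∈ v 0, x = (ω : Ordinal.{u}).toZFSet) ∧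
    ((v 0).IsOrdinal ∧ (v 0).IsOrdinal ∧ Cf (v 0).rank (v 0).rank) ∧
    ∀ t ∈ v 0, ¬ Onto t (v 0)) ?_ fun v => ?_
  · refine (loc_ord 0).and ((Loc.exMem _ (loc_omega 0)).and (Loc.and ?_
      (Loc.allMem _ (loc_onto 0 1).not)))
    exact hLA.ren fun _ => 0
  · refine and_congr_right fun h0 => ?_
    obtain ⟨δ, hδ⟩ := ord_of h0
    rw [hδ, rank_toZFSet]
    constructor
    · rintro ⟨D, hD, hreg, hsl, h1⟩
      refine ⟨⟨_, ?_, rfl⟩, ⟨ZFSet.isOrdinal_toZFSet _, ZFSet.isOrdinal_toZFSet _, ?_⟩, ?_⟩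
      · rw [toZFSet_mem_toZFSet_iff, hD, ← ord_aleph0, Cardinal.ord_lt_ord]
        exact h1
      · show δ.cof.ord = δ
        rw [hD, hreg.cof_ord]
      · intro t ht
        obtain ⟨τ, hτ, rfl⟩ := mem_toZFSet_iff.1 ht
        rw [onto_iff, hD, Cardinal.card_ord, not_le]
        refine hsl.isStrongPrelimit ?_
        rw [hD] at hτ
        exact Cardinal.lt_ord.1 hτ
    · rintro ⟨⟨x, hx, rfl⟩, ⟨-, -, hcf⟩, hon⟩
      have hcf : δ.cof.ord = δ := hcf
      have hω : ω < δ := toZFSet_mem_toZFSet_iff.1 hx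
      have hlt : ℵ₀ < δ.cof := by
        rw [← Cardinal.ord_lt_ord, ord_aleph0, hcf]
        exact hω
      refine ⟨δ.cof, hcf.symm, ⟨hlt.le, ?_⟩, ⟨(Cardinal.aleph0_pos.trans hlt).ne', ?_⟩, hlt⟩
      · rw [hcf]
      · intro c hc
        have h1 : c.ord < δ := by
          rw [← hcf, Cardinal.ord_lt_ord]
          exact hc
        have h2 := hon _ (toZFSet_mem_toZFSet_iff.2 h1)
        rw [onto_iff, Cardinal.card_ord, not_le] at h2
        have h3 : δ.card = δ.cof := by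
          conv_lhs => rw [← hcf]
          rw [Cardinal.card_ord]
        rwa [h3] at h2

end Pool.Agent.H54.HD.RC
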