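import Pool.Agent.H7.HD.Tools2

/-!
# MP_e37c09_lc, module XG: the embedding is definable from ordinals on `γ`
-/

open Ordinal Cardinal Order Set
open scoped ZFSet

universe u

namespace Pool.Agent.H54.HD.XG

open _root_.HD

theorem X (hXF : T_XF.{u}) (hVH : T_VH.{u}) (hDA : T_DA.{u}) (hDB : T_DB.{u}) : T_XG.{u} := by
  intro δ η θ j M K γ f hS
  have hE := hS.emb
  -- the supremum `ρ`
  have hex : ∃ ρ : Ordinal.{u}, ∀ x < K.ord, Jo j x < ρ :=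
    ⟨θ, fun x hx => hE.Jo_lt (hx.trans hS.kη)⟩
  obtain ⟨ρ, hρ, hmin⟩ : ∃ ρ : Ordinal.{u}, (∀ x < K.ord, Jo j x < ρ) ∧
      ∀ y < ρ, ¬ ∀ x < K.ord, Jo j x < y := by
    refine ⟨sInf {ρ : Ordinal.{u} | ∀ x < K.ord, Jo j x < ρ}, csInf_mem hex, fun y hy h => ?_⟩
    have h2 : y ∈ {ρ : Ordinal.{u} | ∀ x < K.ord, Jo j x < ρ} := h
    exact absurd (csInf_le' h2) (not_le.2 hy)
  have hlim : IsSuccLimit K.ord := Cardinal.isSuccLimit_ord hS.kreg.aleph0_le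
  have hρ2 : ∀ y < ρ, ∃ x < K.ord, y < Jo j x := by
    intro y hy
    have h1 := hmin y hy
    push Not at h1
    obtain ⟨x, hx, hxy⟩ := h1
    have hsx : succ x < K.ord := hlim.succ_lt hx
    refine ⟨succ x, hsx, hxy.trans_lt ?_⟩
    exact (hE.lt_iff (hx.trans hS.kη) (hsx.trans hS.kη)).2 (lt_succ x)
  have hF := hXF δ η θ j M K γ f hS ρ hρ hρ2
  -- the set
  set X : Set Ordinal.{u} := {i | i < Jo j γ ∧ Pos M.ord ρ (fib (j f) i)} with hX
  have hmem : ∀ i, i ∈ X ↔ ∃ i0 < γ, i = Jo j i0 := by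
    intro i
    constructor
    · rintro ⟨h1, h2⟩
      exact (hF i h1).1 h2
    · rintro ⟨i0, h0, rfl⟩
      have h1 : Jo j i0 < Jo j γ := (hE.lt_iff (h0.trans hS.γη) hS.γη).2 h0
      exact ⟨h1, (hF _ h1).2 ⟨i0, h0, rfl⟩⟩
  have hDX : DO fun w => w 0 ∈ X := by
    have h1 : DO fun w => Pos (w 0) (w 2)
        {a : Ordinal.{u} | ZFSet.pair a.toZFSet (w 1).toZFSet ∈ j f} :=
      hDA 0 2 (fun a w => ZFSet.pair a.toZFSet (w 1).toZFSet ∈ j f)
        (DO.s2 (X := fun x y => ZFSet.pair x.toZFSet y.toZFSet ∈ j f) hS.odj.dr 0 2)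
    have h2 : DO fun w => Pos M.ord (w 1)
        {a : Ordinal.{u} | ZFSet.pair a.toZFSet (w 0).toZFSet ∈ j f} :=
      DO.sub (R := fun m w => Pos m (w 1)
        {a : Ordinal.{u} | ZFSet.pair a.toZFSet (w 0).toZFSet ∈ j f}) M.ord h1
    have h3 : DO fun w => Pos M.ord (w 0)
        {a : Ordinal.{u} | ZFSet.pair a.toZFSet (w 1).toZFSet ∈ j f} :=
      DO.s2 (X := fun x y => Pos M.ord y
        {a : Ordinal.{u} | ZFSet.pair a.toZFSet x.toZFSet ∈ j f}) h2 1 0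
    have h4 : DO fun w => Pos M.ord ρ
        {a : Ordinal.{u} | ZFSet.pair a.toZFSet (w 0).toZFSet ∈ j f} :=
      DO.sub (R := fun r w => Pos M.ord r
        {a : Ordinal.{u} | ZFSet.pair a.toZFSet (w 0).toZFSet ∈ j f}) ρ h3
    exact (DO.ltc 0 (Jo j γ)).and h4
  have hN : DO fun w => nth X (w 0) (w 1) := hDB (fun a _ => a ∈ X) hDX
  show DO fun w => w 0 < γ ∧ w 1 = Jo j (w 0)
  refine ((DO.ltc 0 γ).and hN).congr fun w => and_congr_right fun ha => ?_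
  have hthis : nth X (w 0) (Jo j (w 0)) := by
    refine ⟨(hmem _).2 ⟨_, ha, rfl⟩, Jo j, fun x y hxy hy => ?_, fun x hx => ⟨?_, ?_⟩,
      fun y hy hlt => ?_⟩
    · exact (hE.lt_iff ((hxy.trans (hy.trans ha)).trans hS.γη) ((hy.trans ha).trans hS.γη)).2 hxy
    · exact (hmem _).2 ⟨x, hx.trans ha, rfl⟩
    · exact (hE.lt_iff ((hx.trans ha).trans hS.γη) (ha.trans hS.γη)).2 hx
    · obtain ⟨i0, h0, rfl⟩ := (hmem _).1 hy
      exact ⟨i0, (hE.lt_iff (h0.trans hS.γη) (ha.trans hS.γη)).1 hlt, rfl⟩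
  constructor
  · rintro he
    rw [he]
    exact hthis
  · intro hn
    have h2 := (hVH X).2.1
    refine le_antisymm ?_ ?_
    · by_contra hlt
      exact absurd ((h2 _ _ _ _ hthis hn).2 (not_le.1 hlt)) (lt_irrefl _)
    · by_contra hlt
      exact absurd ((h2 _ _ _ _ hn hthis).2 (not_le.1 hlt)) (lt_irrefl _)

end Pool.Agent.H54.HD.XG
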